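import Pool.Agent.H529Z.Half.Fat

/-!
# The recursion

Sets `N y m` of points below `y` are chosen by recursion on `(y, m)` in the lexicographic order.
`N y m` is a small free piece, no two of its points are joined at a level `≤ m`, it avoids all
`N b j` with `b ∈ N y k`, `k < m`, and it meets every fat set listed at level `m` below `y`.
-/

namespace Pool.Agent.H529Z.Half
open Cardinal Ordinal Set

universe u v

variable {L M : Type u} [LinearOrder L] [LinearOrder M] {κ : Cardinal.{u}}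
  {c : M → Cardinal.{u}} {D : M → L → Set L}

theorem step (hS : Setup κ c D) (e : L → Set L) (y : L) (m : M) (G : L → M → Set L)
    (hG : ∀ b j, Piece c D j (G b j)) :
    ∃ W : Set L, (W ⊆ Iio y ∧ Piece c D m W) ∧
      (∀ x ∈ W, ∀ z ∈ W, x ≠ z → ∀ k ≤ m, x ∉ G z k) ∧
      (∀ k < m, ∀ b ∈ G y k, ∀ j, Disjoint W (G b j)) ∧
      ∀ i ∈ D m y, e i ⊆ Iio y → Fat κ c D (e i) → (W ∩ e i).Nonempty := by
  have hμ := hS.inf m
  let f : L → Set L := fun z => D m z ∪ ⋃ k : Iic m, G z k.1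
  have hf : ∀ z, #(f z) ≤ c m := by
    intro z
    refine mk_union_le' hμ (hS.small m z) ?_
    refine mk_iUnion_le' hμ ((mk_set_le _).trans (hS.le_c m)) fun k => ?_
    exact (hG z k.1).1.trans (hS.mono k.2)
  let J : Set L := ⋃ k : Iio m, G y k.1
  have hJ : #J ≤ c m := by
    refine mk_iUnion_le' hμ ((mk_set_le _).trans (hS.le_c m)) fun k => ?_
    exact (hG y k.1).1.trans (hS.mono (le_of_lt k.2))
  let U : Set L := ⋃ b : J, ⋃ j, G b.1 j
  let ι : Type u := {i : L // i ∈ D m y ∧ e i ⊆ Iio y ∧ Fat κ c D (e i)}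
  have hι : #ι ≤ c m := by
    refine le_trans ?_ (hS.small m y)
    exact mk_le_mk_of_subset (s := {i : L | i ∈ D m y ∧ e i ⊆ Iio y ∧ Fat κ c D (e i)})
      fun i hi => hi.1
  have hX : ∀ i : ι, Order.succ (c m) < #(e i.1 \ U : Set L) := by
    intro i
    by_contra hc
    rw [not_lt] at hc
    refine i.2.2.2 (Order.succ (c m)) (hS.lim _ (hS.lt m)) J (fun b j => G b.1 j) (e i.1 \ U)
      (hJ.trans (Order.le_succ _)) hc (fun b j => hG b.1 j) ?_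
    intro x hx
    by_cases hU : x ∈ U
    · exact Or.inr hU
    · exact Or.inl ⟨hx, hU⟩
  obtain ⟨W, h1, h2, h3, h4⟩ := exists_transversal hμ f hf hι (fun i : ι => e i.1 \ U) hX
  refine ⟨W, ⟨fun w hw => ?_, h1, h2.mono fun z => subset_union_left⟩, ?_, ?_, ?_⟩
  · obtain ⟨i, hi⟩ := h3 w hw
    exact i.2.2.1 hi.1
  · intro x hx z hz hxz k hk hm
    exact h2 x hx z hz hxz (Or.inr (mem_iUnion.2 ⟨⟨k, hk⟩, hm⟩))
  · intro k hk b hb j
    rw [disjoint_left]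
    intro w hw hwb
    obtain ⟨i, hi⟩ := h3 w hw
    exact hi.2 (mem_iUnion.2 ⟨⟨b, mem_iUnion.2 ⟨⟨k, hk⟩, hb⟩⟩, mem_iUnion.2 ⟨j, hwb⟩⟩)
  · intro i hi h5 h6
    obtain ⟨w, hw1, hw2⟩ := h4 ⟨i, hi, h5, h6⟩
    exact ⟨w, hw1, hw2.1⟩

theorem exists_N [WellFoundedLT L] [WellFoundedLT M] (hS : Setup κ c D) (e : L → Set L) :
    ∃ N : L → M → Set L, (∀ y m, N y m ⊆ Iio y) ∧
      (∀ y m, ∀ x ∈ N y m, ∀ z ∈ N y m, x ≠ z → ∀ k ≤ m, x ∉ N z k) ∧
      (∀ y k m, k < m → ∀ b ∈ N y k, ∀ j, Disjoint (N y m) (N b j)) ∧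
      ∀ y m, ∀ i ∈ D m y, e i ⊆ Iio y → Fat κ c D (e i) → (N y m ∩ e i).Nonempty := by
  obtain ⟨F, hF⟩ := exists_rec_tot (I := L ×ₗ M) (X := Set L)
    (fun p W => W ⊆ Iio (ofLex p).1 ∧ Piece c D (ofLex p).2 W) ∅
    (fun p => ⟨empty_subset _, by simp, free_empty _⟩)
    (fun p G W =>
      (∀ x ∈ W, ∀ z ∈ W, x ≠ z → ∀ k ≤ (ofLex p).2, x ∉ G (toLex (z, k))) ∧
      (∀ k < (ofLex p).2, ∀ b ∈ G (toLex ((ofLex p).1, k)), ∀ j,
        Disjoint W (G (toLex (b, j)))) ∧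
      ∀ i ∈ D (ofLex p).2 (ofLex p).1, e i ⊆ Iio (ofLex p).1 → Fat κ c D (e i) →
        (W ∩ e i).Nonempty)
    (fun p G hG => step hS e (ofLex p).1 (ofLex p).2 (fun b j => G (toLex (b, j)))
      (fun b j => (hG (toLex (b, j))).2))
  have hlt : ∀ (y : L) (m : M) (b : L) (j : M), b < y → toLex (b, j) < toLex (y, m) :=
    fun y m b j h => Prod.Lex.toLex_lt_toLex.2 (Or.inl h)
  have h1 : ∀ y m, F (toLex (y, m)) ⊆ Iio y := fun y m => (hF (toLex (y, m))).1.1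
  refine ⟨fun y m => F (toLex (y, m)), h1, ?_, ?_, ?_⟩
  · intro y m x hx z hz hxz k hk
    have h2 := (hF (toLex (y, m))).2.1 x hx z hz hxz k hk
    simp only [if_pos (hlt y m z k (h1 y m hz))] at h2
    exact h2
  · intro y k m hk b hb j
    have h3 : toLex (y, k) < toLex (y, m) := Prod.Lex.toLex_lt_toLex.2 (Or.inr ⟨rfl, hk⟩)
    have h2 := (hF (toLex (y, m))).2.2.1 k hk b
      (by simpa only [ofLex_toLex, if_pos h3] using hb) j
    simp only [if_pos (hlt y m b j (h1 y k hb))] at h2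
    exact h2
  · intro y m i hi h2 h3
    exact (hF (toLex (y, m))).2.2.2 i hi h2 h3

theorem no_clique [WellFoundedLT L] [WellFoundedLT M] (hM : ℵ₀ ≤ #M) (N : L → M → Set L)
    (h2 : ∀ y m, ∀ x ∈ N y m, ∀ z ∈ N y m, x ≠ z → ∀ k ≤ m, x ∉ N z k)
    (h3 : ∀ y k m, k < m → ∀ b ∈ N y k, ∀ j, Disjoint (N y m) (N b j))
    (H : Set L) (hH : #M < #H) (hc : ∀ a ∈ H, ∀ b ∈ H, a < b → ∃ m, a ∈ N b m) : False := by
  let H0 : Set L := {a | a ∈ H ∧ #(H ∩ Iio a : Set L) ≤ #M}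
  have h0 : #M < #H0 := by
    by_contra hle
    rw [not_lt] at hle
    obtain ⟨x, hx1, hx2⟩ := exists_notMem_of_lt (hle.trans_lt hH)
    obtain ⟨a, ⟨ha1, ha2⟩, ha3⟩ := (wellFounded_lt (α := L)).has_min {a | a ∈ H ∧ a ∉ H0}
      ⟨x, hx1, hx2⟩
    refine ha2 ⟨ha1, le_trans (mk_le_mk_of_subset ?_) hle⟩
    rintro b ⟨hb1, hb2⟩
    by_contra hb
    exact ha3 b ⟨hb1, hb⟩ hb2
  have hins : ∀ a ∈ H0, #(insert a (H ∩ Iio a) : Set L) ≤ #M := fun a ha =>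
    mk_insert_le.trans (add_le_of_le hM ha.2 (one_le_aleph0.trans hM))
  have habove : ∀ S ⊆ H0, #M < #S → ∀ a ∈ H0, ∃ b ∈ S, a < b := by
    intro S hS hS' a ha
    obtain ⟨b, hb1, hb2⟩ := exists_notMem_of_lt ((hins a ha).trans_lt hS')
    refine ⟨b, hb1, ?_⟩
    by_contra hlt
    rcases (not_lt.1 hlt).eq_or_lt with h | h
    · exact hb2 (Or.inl h)
    · exact hb2 (Or.inr ⟨(hS hb1).1, h⟩)
  let E : L → L → M → Prop := fun a b k => ∃ j ≤ k, a ∈ N b j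
  have hmon : ∀ a ∈ H, ∀ b ∈ H, ∀ y ∈ H, a < b → b < y → ∀ k, E b y k → E a y k := by
    rintro a ha b hb y hy hab hby k ⟨j, hj, hbj⟩
    obtain ⟨m, hm⟩ := hc a ha y hy (hab.trans hby)
    obtain ⟨n, hn⟩ := hc a ha b hb hab
    refine ⟨m, le_trans ?_ hj, hm⟩
    by_contra hlt
    exact disjoint_left.1 (h3 y j m (not_le.1 hlt) b hbj n) hm hn
  have hstr : ∀ a ∈ H, ∀ b ∈ H, ∀ y ∈ H, a < b → b < y → ∀ k, E a b k → E b y k →
      ∃ k' < k, E a y k' := by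
    rintro a ha b hb y hy hab hby k ⟨n, hn, han⟩ ⟨j, hj, hbj⟩
    obtain ⟨m, hm⟩ := hc a ha y hy (hab.trans hby)
    have hmj : m ≤ j := by
      by_contra hlt
      exact disjoint_left.1 (h3 y j m (not_le.1 hlt) b hbj n) hm han
    refine ⟨m, ?_, m, le_rfl, hm⟩
    by_contra hlt
    have hkm : k ≤ m := not_lt.1 hlt
    have hjm : j = m := le_antisymm (hj.trans hkm) hmj
    subst hjm
    exact h2 y j a hm b hbj hab.ne n (hn.trans hkm) han
  let Q : L → M → Prop := fun a k => #M < #{b | b ∈ H0 ∧ a < b ∧ E a b k}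
  have hQ : ∀ a ∈ H0, ∀ b ∈ H0, a < b → ∀ k, Q b k → Q a k := by
    intro a ha b hb hab k h
    refine lt_of_lt_of_le h (mk_le_mk_of_subset ?_)
    rintro y ⟨hy1, hy2, hy3⟩
    exact ⟨hy1, hab.trans hy2, hmon a ha.1 b hb.1 y hy1.1 hab hy2 k hy3⟩
  have hpig : ∀ (K : M → Prop) (S : Set L) (P : L → M → Prop), #M < #S →
      (∀ x ∈ S, ∃ k, K k ∧ P x k) → ∃ k, K k ∧ #M < #{x | x ∈ S ∧ P x k} := by
    intro K S P hS h
    have hne : Nonempty M := by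
      rw [← mk_ne_zero_iff]
      exact (aleph0_pos.trans_le hM).ne'
    choose! g hg using h
    obtain ⟨k, hk⟩ := pigeon hM le_rfl hS g
    obtain ⟨x, hx1, hx2⟩ : {x | x ∈ S ∧ g x = k}.Nonempty := by
      rw [← nonempty_coe_sort, ← mk_ne_zero_iff]
      exact ((aleph0_pos.trans_le hM).trans hk).ne'
    refine ⟨k, hx2 ▸ (hg x hx1).1, hk.trans_le (mk_le_mk_of_subset ?_)⟩
    rintro z ⟨hz1, hz2⟩
    exact ⟨hz1, hz2 ▸ (hg z hz1).2⟩
  have hall : ∀ K : M → Prop, (∀ a ∈ H0, ∃ k, K k ∧ Q a k) → ∃ k, K k ∧ ∀ a ∈ H0, Q a k := by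
    intro K h
    obtain ⟨k, hk1, hk2⟩ := hpig K H0 Q h0 h
    refine ⟨k, hk1, fun a ha => ?_⟩
    obtain ⟨b, hb1, hb2⟩ := habove _ (fun x hx => hx.1) hk2 a ha
    exact hQ a ha b hb1.1 hb2 k hb1.2
  have hno : ∀ k, ¬ ∀ a ∈ H0, Q a k := by
    intro k
    induction k using (wellFounded_lt (α := M)).induction with
    | _ k ih =>
      intro hk
      obtain ⟨k', hk'1, hk'2⟩ := hall (fun k' => k' < k) (by
        intro a ha
        obtain ⟨b, hb1, hb2, hb3⟩ : {b | b ∈ H0 ∧ a < b ∧ E a b k}.Nonempty := by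
          rw [← nonempty_coe_sort, ← mk_ne_zero_iff]
          exact ((aleph0_pos.trans_le hM).trans (hk a ha)).ne'
        obtain ⟨k', h4, h5⟩ := hpig (fun k' => k' < k) _ (fun y k' => E a y k') (hk b hb1)
          (fun y hy => hstr a ha.1 b hb1.1 y hy.1.1 hb2 hy.2.1 k hb3 hy.2.2)
        refine ⟨k', h4, h5.trans_le (mk_le_mk_of_subset ?_)⟩
        rintro y ⟨⟨hy1, hy2, _⟩, hy4⟩
        exact ⟨hy1, hb2.trans hy2, hy4⟩)
      exact ih k' hk'1 hk'2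
  obtain ⟨k, _, hk⟩ := hall (fun _ => True) (by
    intro a ha
    have h4 : #M < #{b | b ∈ H0 ∧ a < b} := by
      by_contra hle
      rw [not_lt] at hle
      have h5 : H0 ⊆ {b | b ∈ H0 ∧ a < b} ∪ insert a (H ∩ Iio a) := by
        intro b hb
        rcases lt_trichotomy a b with h | h | h
        · exact Or.inl ⟨hb, h⟩
        · exact Or.inr (Or.inl h.symm)
        · exact Or.inr (Or.inr ⟨hb.1, h⟩)
      exact absurd ((mk_le_mk_of_subset h5).trans (mk_union_le' hM hle (hins a ha)))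
        (not_le.2 h0)
    obtain ⟨k, _, h5⟩ := hpig (fun _ => True) _ (fun b k => E a b k) h4 (by
      intro b hb
      obtain ⟨m, hm⟩ := hc a ha.1 b hb.1.1 hb.2
      exact ⟨m, trivial, m, le_rfl, hm⟩)
    refine ⟨k, trivial, h5.trans_le (mk_le_mk_of_subset ?_)⟩
    rintro y ⟨⟨hy1, hy2⟩, hy4⟩
    exact ⟨hy1, hy2, hy4⟩)
  exact hno k hk

end Pool.Agent.H529Z.Half
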