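import Mathlib

namespace Pool.Agent.H529Z.Half
open Cardinal

universe u

/-- the ordinals below `κ⁺` with their usual order -/
abbrev Lam (κ : Cardinal.{u}) : Type u := (Order.succ κ).ord.ToType

/-- The relation `R(κ)`: every colouring of the pairs of ordinals below `κ⁺` with `0` and `1`
has an injective copy of some graph `G(A, B)` with `|A| = |B| = κ⁺` all of whose edges have
colour `1`, or a set of size `cf(κ)⁺` all of whose pairs have colour `0`. -/
def R (κ : Cardinal.{u}) : Prop :=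
  ∀ f : Sym2 (Lam κ) → Fin 2,
    (∃ A B : Set (Lam κ), #A = Order.succ κ ∧ #B = Order.succ κ ∧
      ∃ φ : Lam κ → Lam κ, Set.InjOn φ (A ∪ B) ∧
        ∀ ξ ∈ A, ∀ η ∈ B, ξ < η → f s(φ ξ, φ η) = 1) ∨
    (∃ H : Set (Lam κ), #H = Order.succ κ.ord.cof ∧
      ∀ x ∈ H, ∀ y ∈ H, x ≠ y → f s(x, y) = 0)

end Pool.Agent.H529Z.Half
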