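import Pool.Agent.H529Z.Half.Free

/-!
# Fat sets

`D m y` is a set of size at most `c m`, the sets `D m y` increase with `m` and exhaust the
points below `y`.  A set is fat if fewer than `κ` points together with fewer than `κ` unions
`⋃ m, V m` of `D m`-free sets `V m` of size at most `c m` never cover it.  Every set of size
larger than `κ` has a fat subset of size at most `κ`.
-/

namespace Pool.Agent.H529Z.Half
open Cardinal Ordinal Set

universe u v

/-- the data of the construction -/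
structure Setup {L M : Type u} [LinearOrder L] [LinearOrder M] (κ : Cardinal.{u})
    (c : M → Cardinal.{u}) (D : M → L → Set L) : Prop where
  infM : ℵ₀ ≤ #M
  le_c : ∀ m, #M ≤ c m
  mono : Monotone c
  lt : ∀ m, c m < κ
  cof : ∀ μ < κ, ∃ m, μ ≤ c m
  lim : ∀ μ < κ, Order.succ μ < κ
  pow : ∀ μ < κ, μ ^ #M < κ
  small : ∀ m y, #(D m y) ≤ c m
  monoD : ∀ k m, k ≤ m → ∀ y, D k y ⊆ D m y
  cover : ∀ x y, x < y → ∃ m, x ∈ D m y

variable {L M : Type u} [LinearOrder L] [LinearOrder M] {κ : Cardinal.{u}}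
  {c : M → Cardinal.{u}} {D : M → L → Set L}

theorem Setup.inf (hS : Setup κ c D) (m : M) : ℵ₀ ≤ c m := hS.infM.trans (hS.le_c m)

theorem Setup.nonempty (hS : Setup κ c D) : Nonempty M := by
  rw [← mk_ne_zero_iff]
  exact (aleph0_pos.trans_le hS.infM).ne'

theorem Setup.M_lt (hS : Setup κ c D) : #M < κ := by
  obtain ⟨m⟩ := hS.nonempty
  exact (hS.le_c m).trans_lt (hS.lt m)

theorem Setup.infK (hS : Setup κ c D) : ℵ₀ ≤ κ := hS.infM.trans hS.M_lt.le

/-- small free pieces -/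
def Piece (c : M → Cardinal.{u}) (D : M → L → Set L) (m : M) (W : Set L) : Prop :=
  #W ≤ c m ∧ Free (D m) W

/-- not covered by `ν` points and `ν` unions of pieces -/
def FatAt (c : M → Cardinal.{u}) (D : M → L → Set L) (ν : Cardinal.{u}) (X : Set L) : Prop :=
  ∀ (J : Type u) (V : J → M → Set L) (Y : Set L), #J ≤ ν → #Y ≤ ν →
    (∀ j m, Piece c D m (V j m)) → ¬ X ⊆ Y ∪ ⋃ j, ⋃ m, V j m

/-- not covered by fewer than `κ` points and unions of pieces -/
def Fat (κ : Cardinal.{u}) (c : M → Cardinal.{u}) (D : M → L → Set L) (X : Set L) : Prop :=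
  ∀ ν < κ, FatAt c D ν X

theorem exists_chrom (hS : Setup κ c D) {ν : Cardinal.{u}} {T : Type u} (hT : ν ^ #M < #T)
    (e : T → L) (he : Function.Injective e) :
    ∃ k, ∀ χ : T → ν.out, ∃ s t, s ≠ t ∧ χ s = χ t ∧ e s ∈ D k (e t) := by
  by_contra hc
  push Not at hc
  choose χ hχ using hc
  have h1 : Function.Injective (fun (t : T) (k : M) => χ k t) := by
    intro s t hst
    by_contra hne
    have h2 : ∀ k, χ k s = χ k t := fun k => congrFun hst k
    rcases lt_trichotomy (e s) (e t) with h | h | h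
    · obtain ⟨m, hm⟩ := hS.cover _ _ h
      exact hχ m s t hne (h2 m) hm
    · exact hne (he h)
    · obtain ⟨m, hm⟩ := hS.cover _ _ h
      exact hχ m t s (Ne.symm hne) (h2 m).symm hm
  have h2 := mk_le_of_injective h1
  rw [← power_def, mk_out] at h2
  exact absurd h2 (not_le.2 hT)

theorem exists_fatAt (hS : Setup κ c D) (n : M) (A : Set L) (hA : κ < #A) :
    ∃ X ⊆ A, #X ≤ κ ∧ FatAt c D (c n) X := by
  classical
  have hκ := hS.infK
  have hν := hS.inf n
  let T : Type u := (Order.succ (c n ^ #M)).out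
  let I : Type u := (Order.succ κ).out
  have hT : #T = Order.succ (c n ^ #M) := mk_out _
  have hI : #I = Order.succ κ := mk_out _
  have hTκ : #T ≤ κ := by
    rw [hT]
    exact Order.succ_le_of_lt (hS.pow _ (hS.lt n))
  have h1 : #(I × T) ≤ #A := by
    rw [mk_prod, Cardinal.lift_id, Cardinal.lift_id, hI]
    refine (mul_le_of_le (hκ.trans (Order.le_succ κ)) le_rfl
      (hTκ.trans (Order.le_succ κ))).trans (Order.succ_le_of_lt hA)
  obtain ⟨e0⟩ := (le_def _ _).1 h1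
  let e : I → T → L := fun i t => (e0 (i, t)).1
  have he : ∀ i t i' t', e i t = e i' t' → i = i' ∧ t = t' := by
    intro i t i' t' h
    have h2 : (i, t) = (i', t') := e0.injective (Subtype.ext h)
    exact ⟨congrArg Prod.fst h2, congrArg Prod.snd h2⟩
  have h2 : ∀ i, ∃ k, ∀ χ : T → (c n).out, ∃ s t, s ≠ t ∧ χ s = χ t ∧ e i s ∈ D k (e i t) :=
    fun i => exists_chrom hS (by rw [hT]; exact Order.lt_succ _) (e i)
      (fun s t h => (he _ _ _ _ h).2)
  choose kk hkk using h2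
  obtain ⟨k, hk⟩ := pigeon hκ hS.M_lt.le (S := (univ : Set I))
    (by rw [mk_univ, hI]; exact Order.lt_succ κ) kk
  obtain ⟨I', hI'1, hI'2⟩ := le_mk_iff_exists_subset.1 hk.le
  refine ⟨⋃ i : I', range (e i.1), ?_, ?_, ?_⟩
  · intro x hx
    obtain ⟨i, t, rfl⟩ := mem_iUnion.1 hx
    exact (e0 (i.1, t)).2
  · exact mk_iUnion_le' hκ hI'2.le fun i => mk_range_le.trans hTκ
  · intro J V Y hJ hY hV hsub
    have hmx : ℵ₀ ≤ max (c n) (c k) := hν.trans (le_max_left _ _)
    have h3 : #(⋃ j, ⋃ m : Iio k, V j m.1 : Set L) ≤ max (c n) (c k) := by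
      refine mk_iUnion_le' hmx (hJ.trans (le_max_left _ _)) fun j => ?_
      refine mk_iUnion_le' hmx ((mk_set_le _).trans ((hS.le_c n).trans (le_max_left _ _))) ?_
      intro m
      exact (hV j m.1).1.trans ((hS.mono (le_of_lt m.2)).trans (le_max_right _ _))
    have h4 : ∃ i ∈ I', ∀ t, e i t ∉ (⋃ j, ⋃ m : Iio k, V j m.1 : Set L) := by
      by_contra hc
      push Not at hc
      choose t ht using hc
      have h5 : Function.Injective
          (fun i : I' => (⟨e i.1 (t i.1 i.2), ht i.1 i.2⟩ : (⋃ j, ⋃ m : Iio k, V j m.1 : Set L))) := by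
        intro i i' h
        have h7 : e i.1 (t i.1 i.2) = e i'.1 (t i'.1 i'.2) := Subtype.mk.inj h
        exact Subtype.ext (he _ _ _ _ h7).1
      have h6 := (mk_le_of_injective h5).trans h3
      rw [hI'2] at h6
      exact absurd h6 (not_le.2 (max_lt (hS.lt n) (hS.lt k)))
    obtain ⟨i, hi, hit⟩ := h4
    have h5 : ∀ t, ∃ z : Y ⊕ (J × M), (∃ h : e i t ∈ Y, z = Sum.inl ⟨e i t, h⟩) ∨
        ∃ j m, k ≤ m ∧ e i t ∈ V j m ∧ z = Sum.inr (j, m) := by
      intro t
      rcases hsub (mem_iUnion.2 ⟨⟨i, hi⟩, ⟨t, rfl⟩⟩) with h | h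
      · exact ⟨_, Or.inl ⟨h, rfl⟩⟩
      · obtain ⟨j, hj⟩ := mem_iUnion.1 h
        obtain ⟨m, hm⟩ := mem_iUnion.1 hj
        refine ⟨_, Or.inr ⟨j, m, ?_, hm, rfl⟩⟩
        by_contra hlt
        exact hit t (mem_iUnion.2 ⟨j, mem_iUnion.2 ⟨⟨m, not_le.1 hlt⟩, hm⟩⟩)
    choose z hz using h5
    have h6 : #(Y ⊕ (J × M)) ≤ #((c n).out) := by
      rw [mk_out, mk_sum, Cardinal.lift_id, Cardinal.lift_id, mk_prod, Cardinal.lift_id, Cardinal.lift_id]
      exact add_le_of_le hν hY (mul_le_of_le hν hJ (hS.le_c n))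
    obtain ⟨g⟩ := (le_def _ _).1 h6
    obtain ⟨s, t, hst, h7, h8⟩ := hkk i (fun t => g (z t))
    have h9 : z s = z t := g.injective h7
    have hki : kk i = k := (hI'1 hi).2
    have hne : e i s ≠ e i t := fun h => hst (he _ _ _ _ h).2
    rcases hz s with ⟨hs, hs'⟩ | ⟨j, m, hm, hs, hs'⟩ <;>
      rcases hz t with ⟨ht, ht'⟩ | ⟨j', m', hm', ht, ht'⟩ <;> rw [hs', ht'] at h9
    · exact hne (Subtype.mk.inj (Sum.inl.inj h9))
    · exact absurd h9 Sum.inl_ne_inr
    · exact absurd h9 Sum.inr_ne_inl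
    · obtain ⟨rfl, rfl⟩ := Prod.mk.inj (Sum.inr.inj h9)
      rw [hki] at h8
      exact (hV j m).2 _ hs _ ht hne (hS.monoD k m hm _ h8)

theorem exists_fat (hS : Setup κ c D) (A : Set L) (hA : κ < #A) :
    ∃ X ⊆ A, #X ≤ κ ∧ Fat κ c D X := by
  choose X h1 h2 h3 using fun n => exists_fatAt hS n A hA
  refine ⟨⋃ n, X n, iUnion_subset h1, mk_iUnion_le' hS.infK hS.M_lt.le h2, ?_⟩
  intro ν hν J V Y hJ hY hV hsub
  obtain ⟨n, hn⟩ := hS.cof ν hν
  exact h3 n J V Y (hJ.trans hn) (hY.trans hn) hV ((subset_iUnion X n).trans hsub)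

end Pool.Agent.H529Z.Half
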