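import Mathlib

/-!
# Free transversals for set mappings

If `f` assigns to every point a set of size at most `μ`, and at most `μ` sets of size larger
than `μ⁺` are given, then an `f`-free set of size at most `μ` meets all of them.
-/

namespace Pool.Agent.H529Z.Half
open Cardinal Ordinal Set

universe u v

theorem exists_rec {I : Type u} {X : Type v} [LinearOrder I] [WellFoundedLT I]
    (R : (i : I) → ((j : I) → j < i → X) → X → Prop)
    (h : ∀ i (f : (j : I) → j < i → X),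
      (∀ j (hj : j < i), R j (fun k hk => f k (hk.trans hj)) (f j hj)) → ∃ x, R i f x) :
    ∃ F : I → X, ∀ i, R i (fun j _ => F j) (F i) := by
  classical
  rcases isEmpty_or_nonempty I with hI | hI
  · exact ⟨fun i => (hI.false i).elim, fun i => (hI.false i).elim⟩
  have hX : Nonempty X := by
    obtain ⟨b, _, hb⟩ := (wellFounded_lt (α := I)).has_min Set.univ Set.univ_nonempty
    obtain ⟨x, _⟩ := h b (fun j hj => (hb j trivial hj).elim) (fun j hj => (hb j trivial hj).elim)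
    exact ⟨x⟩
  let G : (i : I) → ((j : I) → j < i → X) → X := fun i f =>
    if h : ∃ x, R i f x then h.choose else Classical.arbitrary X
  let F : I → X := (wellFounded_lt (α := I)).fix G
  have hF : ∀ i, F i = G i (fun j _ => F j) := fun i => WellFounded.fix_eq _ G i
  refine ⟨F, fun i => ?_⟩
  induction i using (wellFounded_lt (α := I)).induction with
  | _ i ih =>
    have h1 : ∃ x, R i (fun j _ => F j) x := h i _ (fun j hj => ih j hj)
    have h2 : F i = h1.choose := by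
      rw [hF i]
      exact dif_pos h1
    rw [h2]
    exact h1.choose_spec

theorem exists_rec_tot {I : Type u} {X : Type v} [LinearOrder I] [WellFoundedLT I]
    (B : I → X → Prop) (x0 : X) (h0 : ∀ i, B i x0) (R : I → (I → X) → X → Prop)
    (h : ∀ i G, (∀ j, B j (G j)) → ∃ x, B i x ∧ R i G x) :
    ∃ F : I → X, ∀ i, B i (F i) ∧ R i (fun j => if j < i then F j else x0) (F i) := by
  obtain ⟨F, hF⟩ := exists_rec (I := I) (X := X)
    (fun i g x => B i x ∧ R i (fun j => if h : j < i then g j h else x0) x) (by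
      intro i g ih
      refine h i _ ?_
      intro j
      by_cases hj : j < i
      · simp only [dif_pos hj]
        exact (ih j hj).1
      · simp only [dif_neg hj]
        exact h0 j)
  refine ⟨F, fun i => ⟨(hF i).1, ?_⟩⟩
  have h1 := (hF i).2
  simpa only [dite_eq_ite] using h1

theorem mk_Iio_ord_lt {μ : Cardinal.{u}} (i : μ.ord.ToType) : #(Iio i) < μ := by
  simpa using mk_Iio_lt i

theorem mk_iUnion_le' {α ι : Type u} {μ : Cardinal.{u}} (hμ : ℵ₀ ≤ μ) (hι : #ι ≤ μ)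
    {S : ι → Set α} (hS : ∀ i, #(S i) ≤ μ) : #(⋃ i, S i : Set α) ≤ μ := by
  refine (mk_iUnion_le_sum_mk.trans (sum_le_mk_mul_iSup _)).trans ?_
  exact mul_le_of_le hμ hι (ciSup_le' hS)

theorem mk_union_le' {α : Type u} {μ : Cardinal.{u}} (hμ : ℵ₀ ≤ μ) {S T : Set α}
    (hS : #S ≤ μ) (hT : #T ≤ μ) : #(S ∪ T : Set α) ≤ μ :=
  (mk_union_le S T).trans (add_le_of_le hμ hS hT)

theorem exists_notMem_of_lt {α : Type u} {S T : Set α} (h : #T < #S) : ∃ x ∈ S, x ∉ T := by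
  by_contra hc
  push Not at hc
  exact absurd (mk_le_mk_of_subset hc) (not_le.2 h)

/-- `W` is free for the set mapping `f` -/
def Free {L : Type u} (f : L → Set L) (W : Set L) : Prop :=
  ∀ x ∈ W, ∀ y ∈ W, x ≠ y → x ∉ f y

theorem Free.mono {L : Type u} {f g : L → Set L} {W : Set L} (h : Free g W)
    (hfg : ∀ y, f y ⊆ g y) : Free f W :=
  fun x hx y hy hxy hm => h x hx y hy hxy (hfg y hm)

theorem free_empty {L : Type u} (f : L → Set L) : Free f ∅ := fun _ hx => hx.elim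

theorem exists_root {L : Type u} {μ : Cardinal.{u}} (hμ : ℵ₀ ≤ μ) (f : L → Set L)
    (hf : ∀ y, #(f y) ≤ μ) (X : Set L) (hX : Order.succ μ < #X) :
    ∃ R : Set L, #R ≤ μ ∧ ∀ S : Set L, #S ≤ μ → Disjoint S R →
      μ < #{y | y ∈ X ∧ Disjoint (f y) S} := by
  by_contra hc
  push Not at hc
  obtain ⟨F, hF⟩ := exists_rec (I := (Order.succ μ).ord.ToType) (X := Set L)
    (fun i g S => #S ≤ μ ∧ (∀ j (h : j < i), Disjoint S (g j h)) ∧
      #{y | y ∈ X ∧ Disjoint (f y) S} ≤ μ) (by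
      intro i g ih
      have h1 : #(⋃ j : Iio i, g j.1 j.2 : Set L) ≤ μ :=
        mk_iUnion_le' hμ (Order.lt_succ_iff.1 (mk_Iio_ord_lt i)) (fun j => (ih j.1 j.2).1)
      obtain ⟨S, h2, h3, h4⟩ := hc _ h1
      refine ⟨S, h2, fun j h => ?_, h4⟩
      exact h3.mono_right (subset_iUnion (fun j : Iio i => g j.1 j.2) ⟨j, h⟩))
  have hI : #((Order.succ μ).ord.ToType) = Order.succ μ := by simp
  have h1 : #(⋃ i, {y | y ∈ X ∧ Disjoint (f y) (F i)} : Set L) ≤ Order.succ μ :=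
    mk_iUnion_le' (hμ.trans (Order.le_succ μ)) hI.le
      (fun i => (hF i).2.2.trans (Order.le_succ μ))
  obtain ⟨y, hyX, hy⟩ := exists_notMem_of_lt (h1.trans_lt hX)
  have h2 : ∀ i, ∃ z, z ∈ f y ∧ z ∈ F i := by
    intro i
    by_contra h3
    push Not at h3
    exact hy (mem_iUnion.2 ⟨i, hyX, disjoint_left.2 h3⟩)
  choose z hz1 hz2 using h2
  have h3 : Function.Injective (fun i => (⟨z i, hz1 i⟩ : f y)) := by
    intro i j hij
    have h4 : z i = z j := congrArg Subtype.val hij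
    rcases lt_trichotomy i j with h | h | h
    · exact absurd (hz2 i) (disjoint_left.1 ((hF j).2.1 i h) (h4 ▸ hz2 j))
    · exact h
    · exact absurd (hz2 j) (disjoint_left.1 ((hF i).2.1 j h) (h4 ▸ hz2 i))
  have h4 := (mk_le_of_injective h3).trans (hf y)
  rw [hI] at h4
  exact absurd h4 (not_le.2 (Order.lt_succ μ))

theorem exists_transversal {L : Type u} {μ : Cardinal.{u}} (hμ : ℵ₀ ≤ μ) (f : L → Set L)
    (hf : ∀ y, #(f y) ≤ μ) {ι : Type u} (hι : #ι ≤ μ) (X : ι → Set L)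
    (hX : ∀ i, Order.succ μ < #(X i)) :
    ∃ W : Set L, #W ≤ μ ∧ Free f W ∧ (∀ w ∈ W, ∃ i, w ∈ X i) ∧ ∀ i, (W ∩ X i).Nonempty := by
  choose R hR1 hR2 using fun i => exists_root hμ f hf (X i) (hX i)
  have hR : #(⋃ i, R i : Set L) ≤ μ := mk_iUnion_le' hμ hι hR1
  obtain ⟨_, _⟩ := exists_wellFoundedLT (α := ι)
  obtain ⟨F, hF⟩ := exists_rec (I := ι) (X := L)
    (fun i g x => x ∈ X i ∧ x ∉ ⋃ i, R i ∧ ∀ j (h : j < i), x ∉ f (g j h) ∧ g j h ∉ f x) (by
      intro i g ih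
      have hi : #(Iio i) ≤ μ := (mk_set_le _).trans hι
      have h1 : #(range (fun j : Iio i => g j.1 j.2)) ≤ μ := mk_range_le.trans hi
      have h2 : Disjoint (range (fun j : Iio i => g j.1 j.2)) (R i) := by
        rw [disjoint_left]
        rintro _ ⟨j, rfl⟩ hj
        exact (ih j.1 j.2).2.1 (mem_iUnion.2 ⟨i, hj⟩)
      have h3 := hR2 i _ h1 h2
      have h4 : #((⋃ i, R i) ∪ ⋃ j : Iio i, f (g j.1 j.2) : Set L) ≤ μ :=
        mk_union_le' hμ hR (mk_iUnion_le' hμ hi fun j => hf _)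
      obtain ⟨x, ⟨hx1, hx2⟩, hx3⟩ := exists_notMem_of_lt (h4.trans_lt h3)
      refine ⟨x, hx1, fun h => hx3 (Or.inl h), fun j h => ⟨fun h5 => ?_, fun h5 => ?_⟩⟩
      · exact hx3 (Or.inr (mem_iUnion.2 ⟨⟨j, h⟩, h5⟩))
      · exact disjoint_left.1 hx2 h5 ⟨⟨j, h⟩, rfl⟩)
  refine ⟨range F, mk_range_le.trans hι, ?_, ?_, fun i => ⟨F i, ⟨i, rfl⟩, (hF i).1⟩⟩
  · rintro _ ⟨i, rfl⟩ _ ⟨j, rfl⟩ hij
    rcases lt_trichotomy i j with h | h | h
    · exact ((hF j).2.2 i h).2
    · exact absurd (congrArg F h) hij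
    · exact ((hF i).2.2 j h).1
  · rintro _ ⟨i, rfl⟩
    exact ⟨i, (hF i).1⟩

theorem pigeon {α M : Type u} {μ : Cardinal.{u}} (hμ : ℵ₀ ≤ μ) (hM : #M ≤ μ) {S : Set α}
    (hS : μ < #S) (g : α → M) : ∃ k, μ < #{x | x ∈ S ∧ g x = k} := by
  by_contra hc
  push Not at hc
  have h1 := mk_iUnion_le' hμ hM hc
  have h2 : S ⊆ ⋃ k, {x | x ∈ S ∧ g x = k} := fun x hx => mem_iUnion.2 ⟨g x, hx, rfl⟩
  exact absurd ((mk_le_mk_of_subset h2).trans h1) (not_le.2 hS)

end Pool.Agent.H529Z.Half
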