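import Pool.Agent.H529Z.Half.Build
import Pool.Agent.H529Z.Half.Defs

/-!
# The relation `R(κ)` fails for singular strong limit `κ` with `2 ^ κ = κ⁺`
-/

namespace Pool.Agent.H529Z.Half
open Cardinal Ordinal Set

universe u v

theorem mk_Iio_le {κ : Cardinal.{u}} (a : Lam κ) : #(Iio a) ≤ κ :=
  Order.lt_succ_iff.1 (mk_Iio_ord_lt a)

theorem mk_Iic_le {κ : Cardinal.{u}} (hκ : ℵ₀ ≤ κ) (a : Lam κ) : #(Iic a) ≤ κ := by
  rw [← Iio_insert]
  exact mk_insert_le.trans (add_le_of_le hκ (mk_Iio_le a) (one_le_aleph0.trans hκ))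

theorem mk_Lam {κ : Cardinal.{u}} : #(Lam κ) = Order.succ κ := by
  change #((Order.succ κ).ord.ToType) = _
  simp

theorem exists_bound {κ : Cardinal.{u}} (hκ : ℵ₀ ≤ κ) (S : Set (Lam κ)) (hS : #S ≤ κ) :
    ∃ b : Lam κ, ∀ x ∈ S, x < b := by
  have h1 : #(⋃ x : S, Iic x.1 : Set (Lam κ)) ≤ κ :=
    mk_iUnion_le' hκ hS fun x => mk_Iic_le hκ _
  obtain ⟨b, _, hb⟩ := exists_notMem_of_lt (S := (univ : Set (Lam κ)))
    (h1.trans_lt (by rw [mk_univ, mk_Lam]; exact Order.lt_succ κ))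
  refine ⟨b, fun x hx => ?_⟩
  by_contra hc
  exact hb (mem_iUnion.2 ⟨⟨x, hx⟩, not_lt.1 hc⟩)

theorem exists_mk_Iio_eq {κ ν : Cardinal.{u}} (h : ν < κ) :
    ∃ i : κ.ord.ToType, #(Iio i) = ν := by
  have h1 : ν.ord < typeLT κ.ord.ToType := by
    rw [type_toType]
    exact ord_lt_ord.2 h
  refine ⟨enum (· < ·) ⟨ν.ord, h1⟩, ?_⟩
  have h2 := card_typein (r := ((· < ·) : κ.ord.ToType → κ.ord.ToType → Prop))
    (enum (· < ·) ⟨ν.ord, h1⟩)
  rw [typein_enum, card_ord] at h2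
  exact h2.symm

theorem exists_setup (κ : Cardinal.{u}) (h0 : κ.IsSingular) (h1 : κ.IsStrongLimit) :
    ∃ (c : κ.ord.cof.ord.ToType → Cardinal.{u}) (D : κ.ord.cof.ord.ToType → Lam κ → Set (Lam κ)),
      Setup κ c D := by
  classical
  obtain ⟨s, hs, hs'⟩ := exists_ord_cof_eq κ.ord.ToType
  rw [cof_toType] at hs'
  have h2 : typeLT s = typeLT κ.ord.cof.ord.ToType := by
    rw [hs', type_toType]
  obtain ⟨e⟩ := type_eq.1 h2
  have hM : #(κ.ord.cof.ord.ToType) = κ.ord.cof := by simp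
  have hinf : ℵ₀ ≤ κ.ord.cof := aleph0_le_cof.2 (isSuccLimit_ord h0.aleph0_le)
  have hmono : ∀ a b : κ.ord.cof.ord.ToType, a ≤ b → (e.symm a).1 ≤ (e.symm b).1 := by
    intro a b hab
    rcases hab.eq_or_lt with h | h
    · rw [h]
    · have h3 : (e.symm a) < (e.symm b) := e.symm.map_rel_iff.2 h
      exact le_of_lt h3
  have hinj : ∀ y : Lam κ, ∃ g : Lam κ → κ.ord.ToType, InjOn g (Iio y) := by
    intro y
    have h3 : #(Iio y) ≤ #(κ.ord.ToType) := by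
      simpa using mk_Iio_le y
    obtain ⟨g⟩ := (le_def _ _).1 h3
    have hne : Nonempty κ.ord.ToType := by
      rw [← mk_ne_zero_iff]
      simpa using h0.pos.ne'
    refine ⟨fun x => if h : x < y then g ⟨x, h⟩ else Classical.arbitrary _, ?_⟩
    intro a ha b hb hab
    have ha' : a < y := ha
    have hb' : b < y := hb
    simp only [dif_pos ha', dif_pos hb'] at hab
    exact congrArg Subtype.val (g.injective hab)
  choose g hg using hinj
  refine ⟨fun m => max κ.ord.cof #(Iio (e.symm m).1),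
    fun m y => {x | x < y ∧ g y x ≤ (e.symm m).1}, by rwa [hM], ?_, ?_, ?_, ?_, ?_, ?_, ?_, ?_, ?_⟩
  · intro m
    rw [hM]
    exact le_max_left _ _
  · intro a b hab
    exact max_le_max le_rfl (mk_le_mk_of_subset (Iio_subset_Iio (hmono a b hab)))
  · intro m
    exact max_lt h0.cof_ord_lt (mk_Iio_ord_lt _)
  · intro ν hν
    obtain ⟨i, hi⟩ := exists_mk_Iio_eq hν
    obtain ⟨j, hj, hij⟩ := hs i
    refine ⟨e ⟨j, hj⟩, ?_⟩
    simp only [RelIso.symm_apply_apply]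
    rw [← hi]
    exact (mk_le_mk_of_subset (Iio_subset_Iio hij)).trans (le_max_right _ _)
  · intro ν hν
    exact h0.isSuccLimit.succ_lt hν
  · intro ν hν
    rw [hM]
    have h3 : max ν κ.ord.cof < κ := max_lt hν h0.cof_ord_lt
    have h4 : ℵ₀ ≤ max ν κ.ord.cof := hinf.trans (le_max_right _ _)
    calc ν ^ κ.ord.cof ≤ (max ν κ.ord.cof) ^ κ.ord.cof := power_le_power_right (le_max_left _ _)
      _ ≤ (max ν κ.ord.cof) ^ (max ν κ.ord.cof) :=
          power_le_power_left (aleph0_pos.trans_le h4).ne' (le_max_right _ _)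
      _ = 2 ^ (max ν κ.ord.cof) := power_self_eq h4
      _ < κ := h1.two_power_lt h3
  · intro m y
    have h3 : #{x | x < y ∧ g y x ≤ (e.symm m).1} ≤ #(Iic (e.symm m).1) := by
      refine mk_le_of_injective
        (f := fun x : {x | x < y ∧ g y x ≤ (e.symm m).1} => (⟨g y x.1, x.2.2⟩ : Iic (e.symm m).1)) ?_
      intro a b hab
      exact Subtype.ext (hg y a.2.1 b.2.1 (Subtype.mk.inj hab))
    refine h3.trans ?_
    rw [← Iio_insert]
    have h4 : ℵ₀ ≤ max κ.ord.cof #(Iio (e.symm m).1) := hinf.trans (le_max_left _ _)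
    exact mk_insert_le.trans (add_le_of_le h4 (le_max_right _ _) (one_le_aleph0.trans h4))
  · rintro k m hkm y x ⟨hx1, hx2⟩
    exact ⟨hx1, hx2.trans (hmono k m hkm)⟩
  · intro x y hxy
    obtain ⟨j, hj, hij⟩ := hs (g y x)
    refine ⟨e ⟨j, hj⟩, hxy, ?_⟩
    simpa only [RelIso.symm_apply_apply] using hij

theorem exists_enum {κ : Cardinal.{u}} (hκ : ℵ₀ ≤ κ) (h2 : 2 ^ κ = Order.succ κ) :
    ∃ e : Lam κ → Set (Lam κ), ∀ X : Set (Lam κ), #X ≤ κ → ∃ i, e i = X := by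
  have hinf : Infinite (Lam κ) := by
    rw [infinite_iff, mk_Lam]
    exact hκ.trans (Order.le_succ κ)
  have h1 : #{t : Set (Lam κ) // #t ≤ κ} ≤ #(Lam κ) := by
    refine (mk_bounded_set_le (Lam κ) κ).trans ?_
    rw [mk_Lam, max_eq_left (hκ.trans (Order.le_succ κ)), ← h2, ← power_mul,
      mul_eq_self hκ]
  obtain ⟨g⟩ := (le_def _ _).1 h1
  have hne : Nonempty {t : Set (Lam κ) // #t ≤ κ} := ⟨⟨∅, by simp⟩⟩
  refine ⟨fun i => (Function.invFun g i).1, fun X hX => ⟨g ⟨X, hX⟩, ?_⟩⟩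
  simp only [Function.leftInverse_invFun g.injective ⟨X, hX⟩]

theorem not_R (κ : Cardinal.{u}) (h0 : κ.IsSingular) (h1 : κ.IsStrongLimit)
    (h2 : 2 ^ κ = Order.succ κ) : ¬ R κ := by
  classical
  intro hR
  have hκ := h0.aleph0_le
  obtain ⟨c, D, hS⟩ := exists_setup κ h0 h1
  obtain ⟨e, he⟩ := exists_enum hκ h2
  obtain ⟨N, hN1, hN2, hN3, hN4⟩ := exists_N hS e
  let f : Sym2 (Lam κ) → Fin 2 := Sym2.lift ⟨fun x y =>
    if (∃ m, x ∈ N y m) ∨ (∃ m, y ∈ N x m) then 0 else 1, fun x y => by simp only [or_comm]⟩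
  have hf : ∀ x y, f s(x, y) = if (∃ m, x ∈ N y m) ∨ (∃ m, y ∈ N x m) then 0 else 1 :=
    fun x y => rfl
  rcases hR f with ⟨A, B, hA, hB, φ, hφ, h⟩ | ⟨H, hH, h⟩
  · have h3 : κ < #(φ '' A) := by
      rw [mk_image_eq_of_injOn φ A (hφ.mono subset_union_left), hA]
      exact Order.lt_succ κ
    obtain ⟨X, hX1, hX2, hX3⟩ := exists_fat hS _ h3
    obtain ⟨i, hi⟩ := he X hX2
    have h4 : #{ξ | ξ ∈ A ∧ φ ξ ∈ X} ≤ κ := by
      refine le_trans ?_ hX2
      refine mk_le_of_injective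
        (f := fun x : {ξ | ξ ∈ A ∧ φ ξ ∈ X} => (⟨φ x.1, x.2.2⟩ : X)) ?_
      intro a b hab
      exact Subtype.ext (hφ (Or.inl a.2.1) (Or.inl b.2.1) (Subtype.mk.inj hab))
    obtain ⟨b1, hb1⟩ := exists_bound hκ _ h4
    obtain ⟨b2, hb2⟩ := exists_bound hκ (insert i X)
      (mk_insert_le.trans (add_le_of_le hκ hX2 (one_le_aleph0.trans hκ)))
    have h5 : #{η | η ∈ B ∧ φ η < b2} ≤ κ := by
      refine le_trans ?_ (mk_Iio_le b2)
      refine mk_le_of_injective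
        (f := fun x : {η | η ∈ B ∧ φ η < b2} => (⟨φ x.1, x.2.2⟩ : Iio b2)) ?_
      intro a b hab
      exact Subtype.ext (hφ (Or.inr a.2.1) (Or.inr b.2.1) (Subtype.mk.inj hab))
    obtain ⟨η, hη1, hη2⟩ := exists_notMem_of_lt (S := B)
      ((mk_union_le' hκ (mk_Iio_le b1) h5).trans_lt (by rw [hB]; exact Order.lt_succ κ))
    have h6 : b1 ≤ η := not_lt.1 fun h => hη2 (Or.inl h)
    have h7 : b2 ≤ φ η := not_lt.1 fun h => hη2 (Or.inr ⟨hη1, h⟩)
    obtain ⟨m, hm⟩ := hS.cover i (φ η) ((hb2 i (mem_insert _ _)).trans_le h7)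
    obtain ⟨x, hx1, hx2⟩ := hN4 (φ η) m i hm
      (fun x hx => (hb2 x (mem_insert_of_mem _ (hi ▸ hx))).trans_le h7) (hi ▸ hX3)
    rw [hi] at hx2
    obtain ⟨ξ, hξ, rfl⟩ := hX1 hx2
    have h8 := h ξ hξ η hη1 ((hb1 ξ ⟨hξ, hx2⟩).trans_le h6)
    rw [hf, if_pos (Or.inl ⟨m, hx1⟩)] at h8
    exact absurd h8 (by decide)
  · refine no_clique hS.infM N hN2 hN3 H ?_ ?_
    · rw [hH]
      simp
    · intro a ha b hb hab
      have h3 := h a ha b hb hab.ne
      rw [hf] at h3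
      by_contra hc
      rw [if_neg] at h3
      · exact absurd h3 (by decide)
      · rintro (h4 | ⟨m, hm⟩)
        · exact hc h4
        · exact absurd (hN1 a m hm) (not_lt.2 hab.le)

theorem isStrongLimit_of_gch (hG : ∀ ν : Cardinal.{u}, ℵ₀ ≤ ν → 2 ^ ν = Order.succ ν)
    {κ : Cardinal.{u}} (h0 : κ.IsSingular) : κ.IsStrongLimit := by
  refine ⟨h0.pos.ne', fun ν hν => ?_⟩
  rcases lt_or_ge ν ℵ₀ with h | h
  · exact (power_lt_aleph0 (by exact_mod_cast natCast_lt_aleph0 (n := 2)) h).trans_le h0.aleph0_le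
  · rw [hG ν h]
    exact h0.isSuccLimit.succ_lt hν

end Pool.Agent.H529Z.Half
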